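import Mathlib
import Pool.Agent.Block637.Count

/-!
# An upper bound for the growth rate of potentially positive elements

For `r ≥ 3` the growth rate `γ_r` of potentially positive elements of the free group of rank `r`
is at most `2r - 2 + 1/(r-1)`.
-/

set_option autoImplicit false

open Filter Topology

namespace Pool.Agent.Results.MP_bec853_al.UpperBound

/-- `u` is positive: in its reduced word no generator appears with a negative exponent. -/
def IsPositive {r : ℕ} (u : FreeGroup (Fin r)) : Prop := ∀ a ∈ u.toWord, a.2 = true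

/-- `u` is potentially positive: some automorphism makes it positive. -/
def PotentiallyPositive {r : ℕ} (u : FreeGroup (Fin r)) : Prop :=
  ∃ α : FreeGroup (Fin r) ≃* FreeGroup (Fin r), IsPositive (α u)

/-- the number of potentially positive elements of length `n` in the free group of rank `r` -/
noncomputable def p (r n : ℕ) : ℕ :=
  {u : FreeGroup (Fin r) | u.norm = n ∧ PotentiallyPositive u}.ncard

/-- the exponential growth rate of the potentially positive elements -/
noncomputable def gamma (r : ℕ) : ℝ :=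
  limsup (fun n : ℕ => (p r n : ℝ) ^ ((1 : ℝ) / (n : ℝ))) atTop

open Block637 FreeGroup

lemma chain_of_pairs {L : Type*} (R : L → L → Prop) (l : List L)
    (h : ∀ z z', [z, z'] <:+: l → R z z') : List.IsChain R l := by
  induction l with
  | nil => exact List.isChain_nil
  | cons z l ih =>
    cases l with
    | nil => exact List.isChain_singleton z
    | cons z' l' =>
      rw [List.isChain_cons_cons]
      refine ⟨h z z' ⟨[], l', by simp⟩, ih fun a b hab => h a b ?_⟩
      exact List.IsInfix.trans hab ⟨[z], [], by simp⟩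

/-- a pair of sets of letters giving forbidden turns -/
def Good (r : ℕ) (PQ : Finset (Fin r × Bool) × Finset (Fin r × Bool)) : Prop :=
  Disjoint PQ.1 PQ.2 ∧ 2 * r - 1 ≤ PQ.1.card + PQ.2.card ∧ PQ.1.Nonempty ∧ PQ.2.Nonempty

lemma pp_turns {r : ℕ} (hr : 3 ≤ r) (u : FreeGroup (Fin r)) (hu : PotentiallyPositive u) :
    ∃ PQ, Good r PQ ∧ reduceCyclically u.toWord ∈
      wordsF (TR PQ.1 PQ.2) (reduceCyclically u.toWord).length := by
  classical
  obtain ⟨α, hα⟩ := hu
  set c := reduceCyclically u.toWord with hc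
  set t : FreeGroup (Fin r) := mk (reduceCyclically.conjugator u.toWord) with ht
  have hcyc : IsCyclicallyReduced c := reduceCyclically.isCyclicallyReduced isReduced_toWord
  have hu : u = t * mk c * t⁻¹ := by
    conv_lhs => rw [← mk_toWord (x := u),
      ← reduceCyclically.conj_conjugator_reduceCyclically u.toWord]
    rw [ht, inv_mk, mul_mk, mul_mk]
  set ψ : FreeGroup (Fin r) ≃* FreeGroup (Fin r) :=
    MulEquiv.trans (MulAut.conj t : FreeGroup (Fin r) ≃* FreeGroup (Fin r)) α with hψ
  have hψc : ψ (mk c) = α u := by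
    rw [hψ, MulEquiv.trans_apply, hu]
    rfl
  have h0 : 0 < r := by omega
  obtain ⟨h, P, Q, hred, hP, hQ, hPQ, hall, hturn⟩ := exists_turns ψ ((⟨0, h0⟩ : Fin r), true)
  refine ⟨(Finset.univ.filter (fun z => z ∈ P), Finset.univ.filter (fun z => z ∈ Q)),
    ⟨?_, ?_, ?_, ?_⟩, ?_⟩
  · rw [Finset.disjoint_left]
    intro z hz hz'
    simp only [Finset.mem_filter, Finset.mem_univ, true_and] at hz hz'
    exact hPQ z hz hz'
  · have hdisj : Disjoint (Finset.univ.filter (fun z : Fin r × Bool => z ∈ P))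
        (Finset.univ.filter (fun z : Fin r × Bool => z ∈ Q)) := by
      rw [Finset.disjoint_left]
      intro z hz hz'
      simp only [Finset.mem_filter, Finset.mem_univ, true_and] at hz hz'
      exact hPQ z hz hz'
    rw [← Finset.card_union_of_disjoint hdisj]
    have hsub : ∃ y : Fin r × Bool, Finset.univ.erase y ⊆
        (Finset.univ.filter (fun z : Fin r × Bool => z ∈ P)) ∪
        (Finset.univ.filter (fun z : Fin r × Bool => z ∈ Q)) := by
      have hgen : ∀ z, IsReduced (h ++ [z]) → z ∈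
          (Finset.univ.filter (fun z : Fin r × Bool => z ∈ P)) ∪
          (Finset.univ.filter (fun z : Fin r × Bool => z ∈ Q)) := by
        intro z hz
        have := (hall z).mp hz
        simp only [Finset.mem_union, Finset.mem_filter, Finset.mem_univ, true_and]
        exact this
      induction h using List.reverseRecOn with
      | nil => exact ⟨(⟨0, h0⟩, true), fun z _ => hgen z IsReduced.singleton⟩
      | append_singleton M t _ =>
        refine ⟨bar t, fun z hz => hgen z ?_⟩
        rw [Finset.mem_erase] at hz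
        exact overlap_one hred (isReduced_pair hz.1)
    obtain ⟨y, hy⟩ := hsub
    have h1 := Finset.card_le_card hy
    rw [Finset.card_erase_of_mem (Finset.mem_univ y), Finset.card_univ] at h1
    simp only [Fintype.card_prod, Fintype.card_fin, Fintype.card_bool] at h1
    show 2 * r - 1 ≤ _
    omega
  · obtain ⟨z, hz⟩ := hP
    exact ⟨z, by simpa using hz⟩
  · obtain ⟨z, hz⟩ := hQ
    exact ⟨z, by simpa using hz⟩
  · rw [mem_wordsF]
    refine ⟨rfl, chain_of_pairs _ _ ?_⟩
    intro z z' hzz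
    have hwt : (mk c).toWord = c := toWord_mk_of hcyc.isReduced
    refine ⟨pair_ne (IsRed.of_sub hcyc.isReduced hzz), ?_⟩
    rintro ⟨h1, h2⟩
    simp only [Finset.mem_filter, Finset.mem_univ, true_and] at h1 h2
    refine hturn (mk c) (by rw [hwt]; exact hcyc) ?_ (bar z) h1 z' h2 ?_
    · rw [hψc]
      intro hmem
      have := hα _ hmem
      simp [bar] at this
    · rw [bar_bar, hwt]
      exact hzz

open Classical in
/-- a finite set containing all potentially positive elements of length `n` -/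
noncomputable def Big (r n : ℕ) : Finset (FreeGroup (Fin r)) :=
  ((Finset.range (n + 1)).filter (fun j => 2 * j ≤ n)).biUnion (fun j =>
    (Finset.univ.filter (Good r)).biUnion (fun PQ =>
      ((wordsF (fun _ _ : Fin r × Bool => True) j) ×ˢ (wordsF (TR PQ.1 PQ.2) (n - 2 * j))).image
        (fun tc => (mk (tc.1 ++ tc.2 ++ invRev tc.1) : FreeGroup (Fin r)))))

lemma sub_big {r : ℕ} (hr : 3 ≤ r) (n : ℕ) :
    {u : FreeGroup (Fin r) | u.norm = n ∧ PotentiallyPositive u} ⊆ (Big r n : Set _) := by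
  classical
  rintro u ⟨hn, hu⟩
  obtain ⟨PQ, hgood, hmem⟩ := pp_turns hr u hu
  set c := reduceCyclically u.toWord with hc
  set t := reduceCyclically.conjugator u.toWord with ht
  have hdec : t ++ c ++ invRev t = u.toWord :=
    reduceCyclically.conj_conjugator_reduceCyclically u.toWord
  have hlen : n = 2 * t.length + c.length := by
    rw [← hn, FreeGroup.norm, ← hdec]
    simp only [List.length_append, invRev_length]
    ring
  rw [Finset.mem_coe, Big, Finset.mem_biUnion]
  refine ⟨t.length, ?_, ?_⟩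
  · rw [Finset.mem_filter, Finset.mem_range]
    omega
  · rw [Finset.mem_biUnion]
    refine ⟨PQ, by simpa using hgood, ?_⟩
    rw [Finset.mem_image]
    refine ⟨(t, c), ?_, ?_⟩
    · rw [Finset.mem_product]
      refine ⟨?_, ?_⟩
      · rw [mem_wordsF]
        refine ⟨rfl, chain_of_pairs _ _ fun _ _ _ => trivial⟩
      · have : n - 2 * t.length = c.length := by omega
        rw [this]
        exact hmem
    · show mk (t ++ c ++ invRev t) = u
      rw [hdec, mk_toWord]

lemma all_card {r : ℕ} (hr : 3 ≤ r) (j : ℕ) :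
    ((wordsF (fun _ _ : Fin r × Bool => True) j).card : ℝ) ≤ 2 * (r : ℝ) * (2 * (r : ℝ)) ^ j := by
  have h3 : (3 : ℝ) ≤ r := by exact_mod_cast hr
  have hcardL : 1 ≤ Fintype.card (Fin r × Bool) := by
    simp only [Fintype.card_prod, Fintype.card_fin, Fintype.card_bool]; omega
  have hfin : (Fintype.card (Fin r × Bool) : ℝ) = 2 * r := by
    simp only [Fintype.card_prod, Fintype.card_fin, Fintype.card_bool]; push_cast; ring
  have := wordsF_card_le (fun _ _ : Fin r × Bool => True) (fun _ => 1) (2 * (r : ℝ)) 1 1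
    one_pos (fun _ => le_rfl) (fun _ => le_rfl) (by linarith) le_rfl hcardL (by
      intro z
      rw [Finset.filter_true, Finset.sum_const, Finset.card_univ, nsmul_eq_mul, hfin]) j
  rw [hfin] at this
  simpa using this

lemma big_card {r : ℕ} (hr : 3 ≤ r) (n : ℕ) :
    ((Big r n).card : ℝ) ≤ 32 * (r : ℝ) ^ 3 * 16 ^ r * lamr r ^ n := by
  classical
  have h3 : (3 : ℝ) ≤ r := by exact_mod_cast hr
  have hlam := lamr_ge hr
  have hlam0 : 0 < lamr r := by linarith
  have hstep : ∀ j ∈ (Finset.range (n + 1)).filter (fun j => 2 * j ≤ n),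
      ((((Finset.univ.filter (Good r)).biUnion (fun PQ =>
      ((wordsF (fun _ _ : Fin r × Bool => True) j) ×ˢ (wordsF (TR PQ.1 PQ.2) (n - 2 * j))).image
        (fun tc => (mk (tc.1 ++ tc.2 ++ invRev tc.1) : FreeGroup (Fin r))))).card : ℕ) : ℝ) ≤
      16 * (r : ℝ) ^ 3 * 16 ^ r * lamr r ^ n * (1 / 2) ^ j := by
    intro j hj
    rw [Finset.mem_filter, Finset.mem_range] at hj
    have h1 : ((((Finset.univ.filter (Good r)).biUnion (fun PQ =>
      ((wordsF (fun _ _ : Fin r × Bool => True) j) ×ˢ (wordsF (TR PQ.1 PQ.2) (n - 2 * j))).image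
        (fun tc => (mk (tc.1 ++ tc.2 ++ invRev tc.1) : FreeGroup (Fin r))))).card : ℕ) : ℝ) ≤
        ∑ PQ ∈ Finset.univ.filter (Good r), (2 * (r : ℝ) * (2 * (r : ℝ)) ^ j) *
          (8 * (r : ℝ) ^ 2 * lamr r ^ (n - 2 * j)) := by
      refine le_trans (Nat.cast_le.mpr Finset.card_biUnion_le) ?_
      push_cast
      apply Finset.sum_le_sum
      intro PQ hPQ
      rw [Finset.mem_filter] at hPQ
      obtain ⟨-, hg1, hg2, hg3, hg4⟩ := hPQ
      have h2 : (((((wordsF (fun _ _ : Fin r × Bool => True) j) ×ˢ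
          (wordsF (TR PQ.1 PQ.2) (n - 2 * j))).image
        (fun tc => (mk (tc.1 ++ tc.2 ++ invRev tc.1) : FreeGroup (Fin r)))).card : ℕ) : ℝ) ≤
          ((wordsF (fun _ _ : Fin r × Bool => True) j).card : ℝ) *
          ((wordsF (TR PQ.1 PQ.2) (n - 2 * j)).card : ℝ) := by
        have := (Finset.card_image_le (s := (wordsF (fun _ _ : Fin r × Bool => True) j) ×ˢ
          (wordsF (TR PQ.1 PQ.2) (n - 2 * j)))
          (f := fun tc => (mk (tc.1 ++ tc.2 ++ invRev tc.1) : FreeGroup (Fin r))))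
        rw [Finset.card_product] at this
        exact_mod_cast this
      refine h2.trans ?_
      apply mul_le_mul (all_card hr j) (count_le hr PQ.1 PQ.2 hg1 hg2 hg3 hg4 _)
        (Nat.cast_nonneg _) (by positivity)
    refine h1.trans ?_
    rw [Finset.sum_const, nsmul_eq_mul]
    have h4 : ((Finset.univ.filter (Good r)).card : ℝ) ≤ 16 ^ r := by
      have h5 : (Finset.univ.filter (Good r)).card ≤
          Fintype.card (Finset (Fin r × Bool) × Finset (Fin r × Bool)) := Finset.card_le_univ _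
      have h6 : Fintype.card (Finset (Fin r × Bool) × Finset (Fin r × Bool)) = 16 ^ r := by
        simp only [Fintype.card_prod, Fintype.card_finset, Fintype.card_fin, Fintype.card_bool]
        rw [← pow_add, show r * 2 + r * 2 = 4 * r by ring, pow_mul]
        norm_num
      rw [h6] at h5
      exact_mod_cast h5
    have h7 : (2 * (r : ℝ)) ^ j * lamr r ^ (n - 2 * j) ≤ lamr r ^ n * (1 / 2) ^ j := by
      have h8 : 2 * (r : ℝ) ≤ lamr r ^ 2 * (1 / 2) := by
        have h9 : 2 * (r : ℝ) - 2 ≤ lamr r := by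
          rw [lamr]
          have : 0 ≤ 1 / ((r : ℝ) - 1) := by
            apply div_nonneg zero_le_one
            linarith
          linarith
        nlinarith
      have h10 : (2 * (r : ℝ)) ^ j ≤ (lamr r ^ 2 * (1 / 2)) ^ j :=
        pow_le_pow_left₀ (by linarith) h8 j
      have h11 : lamr r ^ n = lamr r ^ (2 * j) * lamr r ^ (n - 2 * j) := by
        rw [← pow_add]; congr 1; omega
      rw [h11]
      calc (2 * (r : ℝ)) ^ j * lamr r ^ (n - 2 * j)
          ≤ (lamr r ^ 2 * (1 / 2)) ^ j * lamr r ^ (n - 2 * j) :=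
            mul_le_mul_of_nonneg_right h10 (by positivity)
        _ = lamr r ^ (2 * j) * lamr r ^ (n - 2 * j) * (1 / 2) ^ j := by
            rw [mul_pow, ← pow_mul]; ring
    calc ((Finset.univ.filter (Good r)).card : ℝ) * (2 * (r : ℝ) * (2 * (r : ℝ)) ^ j *
          (8 * (r : ℝ) ^ 2 * lamr r ^ (n - 2 * j)))
        ≤ 16 ^ r * (2 * (r : ℝ) * (2 * (r : ℝ)) ^ j *
          (8 * (r : ℝ) ^ 2 * lamr r ^ (n - 2 * j))) :=
          mul_le_mul_of_nonneg_right h4 (by positivity)
      _ = 16 * (r : ℝ) ^ 3 * 16 ^ r * ((2 * (r : ℝ)) ^ j * lamr r ^ (n - 2 * j)) := by ring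
      _ ≤ 16 * (r : ℝ) ^ 3 * 16 ^ r * (lamr r ^ n * (1 / 2) ^ j) :=
          mul_le_mul_of_nonneg_left h7 (by positivity)
      _ = 16 * (r : ℝ) ^ 3 * 16 ^ r * lamr r ^ n * (1 / 2) ^ j := by ring
  have h1 : ((Big r n).card : ℝ) ≤ ∑ j ∈ (Finset.range (n + 1)).filter (fun j => 2 * j ≤ n),
      16 * (r : ℝ) ^ 3 * 16 ^ r * lamr r ^ n * (1 / 2) ^ j := by
    rw [Big]
    refine le_trans (Nat.cast_le.mpr Finset.card_biUnion_le) ?_
    push_cast
    exact Finset.sum_le_sum hstep
  refine h1.trans ?_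
  rw [← Finset.mul_sum]
  have h2 : ∑ j ∈ (Finset.range (n + 1)).filter (fun j => 2 * j ≤ n), (1 / 2 : ℝ) ^ j ≤ 2 := by
    refine (Finset.sum_le_sum_of_subset_of_nonneg (Finset.filter_subset _ _)
      (fun _ _ _ => by positivity)).trans ?_
    have := sum_geometric_two_le (n + 1)
    simpa using this
  calc 16 * (r : ℝ) ^ 3 * 16 ^ r * lamr r ^ n *
        ∑ j ∈ (Finset.range (n + 1)).filter (fun j => 2 * j ≤ n), (1 / 2 : ℝ) ^ j
      ≤ 16 * (r : ℝ) ^ 3 * 16 ^ r * lamr r ^ n * 2 :=
        mul_le_mul_of_nonneg_left h2 (by positivity)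
    _ = 32 * (r : ℝ) ^ 3 * 16 ^ r * lamr r ^ n := by ring

/-- For every `r ≥ 3` the number of potentially positive elements of length `n` of the free group
of rank `r` is at most `32 r³ 16^r (2r - 2 + 1/(r-1))^n`; in particular
`γ_r ≤ 2r - 2 + 1/(r-1)`. -/
theorem result : ∀ r : ℕ, 3 ≤ r →
    (∀ n : ℕ, (p r n : ℝ) ≤ 32 * (r : ℝ) ^ 3 * 16 ^ r *
      (2 * (r : ℝ) - 2 + 1 / ((r : ℝ) - 1)) ^ n) ∧
    gamma r ≤ 2 * (r : ℝ) - 2 + 1 / ((r : ℝ) - 1) := by
  intro r hr
  have h3 : (3 : ℝ) ≤ r := by exact_mod_cast hr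
  have hp : ∀ n : ℕ, (p r n : ℝ) ≤ 32 * (r : ℝ) ^ 3 * 16 ^ r * lamr r ^ n := by
    intro n
    refine le_trans ?_ (big_card hr n)
    have h := Set.ncard_le_ncard (sub_big hr n) (Finset.finite_toSet _)
    rw [Set.ncard_coe_finset] at h
    exact_mod_cast h
  refine ⟨hp, ?_⟩
  change gamma r ≤ lamr r
  set C : ℝ := 32 * (r : ℝ) ^ 3 * 16 ^ r with hC
  have hCpos : 0 < C := by positivity
  have hρ0 : 0 ≤ lamr r := by linarith [lamr_ge hr]
  refine le_of_forall_gt_imp_ge_of_dense ?_
  intro ρ2 hρ2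
  -- C^(1/n) tends to 1
  have hlim : Tendsto (fun n : ℕ => C ^ ((1 : ℝ) / (n : ℝ)) * lamr r) atTop
      (𝓝 (1 * lamr r)) := by
    refine Tendsto.mul_const _ ?_
    have h1 : Tendsto (fun n : ℕ => (1 : ℝ) / (n : ℝ)) atTop (𝓝 0) :=
      tendsto_one_div_atTop_nhds_zero_nat
    have h2 := (Real.continuousAt_const_rpow (a := C) (b := 0) hCpos.ne').tendsto.comp h1
    simpa [Function.comp_def] using h2
  rw [one_mul] at hlim
  have hev : ∀ᶠ n : ℕ in atTop, (p r n : ℝ) ^ ((1 : ℝ) / (n : ℝ)) ≤ ρ2 := by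
    have h1 := hlim.eventually (gt_mem_nhds hρ2)
    filter_upwards [h1, eventually_gt_atTop 0] with n hn hn0
    have hn' : (n : ℝ) ≠ 0 := by positivity
    have h2 : (p r n : ℝ) ^ ((1 : ℝ) / (n : ℝ)) ≤ (C * lamr r ^ n) ^ ((1 : ℝ) / (n : ℝ)) :=
      Real.rpow_le_rpow (Nat.cast_nonneg _) (hp n) (by positivity)
    have h3 : (C * lamr r ^ n) ^ ((1 : ℝ) / (n : ℝ))
        = C ^ ((1 : ℝ) / (n : ℝ)) * lamr r := by
      rw [Real.mul_rpow hCpos.le (pow_nonneg hρ0 n), ← Real.rpow_natCast, ← Real.rpow_mul hρ0,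
        mul_one_div_cancel hn', Real.rpow_one]
    rw [h3] at h2
    exact h2.trans hn.le
  refine limsup_le_of_le ?_ hev
  refine isCoboundedUnder_le_of_le atTop (x := 0) fun n => ?_
  exact Real.rpow_nonneg (Nat.cast_nonneg _) _

end Pool.Agent.Results.MP_bec853_al.UpperBound
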